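import Mathlib

/-!
Games on Cantor space and tail sets.
-/

set_option autoImplicit false

namespace Pool.Agent.Helper56Tail

/-- the finite position reached after the first `n` moves of the play `x` -/
def pre (x : ℕ → Bool) (n : ℕ) : List Bool := (List.range n).map x

/-- Player I, who chooses the bits `x 0, x 2, x 4, ...`, has a winning strategy in the game
with payoff set `A`. -/
def WinsI (A : Set (ℕ → Bool)) : Prop :=
  ∃ σ : List Bool → Bool, ∀ x : ℕ → Bool, (∀ n, x (2 * n) = σ (pre x (2 * n))) → x ∈ A

/-- Player II, who chooses the bits `x 1, x 3, x 5, ...`, has a winning strategy in the game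
with payoff set `A`. -/
def WinsII (A : Set (ℕ → Bool)) : Prop :=
  ∃ τ : List Bool → Bool, ∀ x : ℕ → Bool,
    (∀ n, x (2 * n + 1) = τ (pre x (2 * n + 1))) → x ∉ A

/-- `B` is a tail set: it is invariant under changing finitely many bits. -/
def TailSet (B : Set (ℕ → Bool)) : Prop :=
  ∀ x y : ℕ → Bool, x ∈ B → (∃ N, ∀ n, N ≤ n → x n = y n) → y ∈ B

end Pool.Agent.Helper56Tail
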