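import Mathlib
import Pool.Agent.Helper56_Tail.Defs

/-!
The coding of an arbitrary game as a game whose payoff set is a tail set.
-/

set_option autoImplicit false

namespace Pool.Agent.Helper56Tail

open Filter

/-! ### Positions -/

@[simp] theorem pre_length (x : ℕ → Bool) (n : ℕ) : (pre x n).length = n := by simp [pre]

theorem pre_succ (x : ℕ → Bool) (n : ℕ) : pre x (n + 1) = pre x n ++ [x n] := by
  simp [pre, List.range_succ]

theorem pre_prefix (x : ℕ → Bool) {m n : ℕ} (h : m ≤ n) : pre x m <+: pre x n := by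
  induction h with
  | refl => exact List.prefix_refl _
  | step _ ih => rw [Nat.succ_eq_add_one, pre_succ]; exact ih.trans (List.prefix_append _ _)

theorem pre_eq_iff (x y : ℕ → Bool) (n : ℕ) : pre x n = pre y n ↔ ∀ i < n, x i = y i := by
  simp [pre]

/-- `x` extends the finite string `s` -/
def Ext (s : List Bool) (x : ℕ → Bool) : Prop := pre x s.length = s

theorem Ext.pre (x : ℕ → Bool) (n : ℕ) : Ext (pre x n) x := by simp [Ext]

theorem Ext.mono {s s' : List Bool} {x : ℕ → Bool} (h : s <+: s') (hx : Ext s' x) : Ext s x := by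
  unfold Ext at *
  have h1 : Helper56Tail.pre x s.length <+: s' := by
    rw [← hx]; exact pre_prefix x h.length_le
  exact (List.prefix_of_prefix_length_le h1 h (by simp)).eq_of_length (by simp)

/-- generating plays -/
theorem exists_run (f : List Bool → Bool) (s : List Bool) :
    ∃ x, Ext s x ∧ ∀ m, s.length ≤ m → x m = f (pre x m) := by
  obtain ⟨R, hR0, hRs⟩ : ∃ R : ℕ → List Bool, R 0 = s ∧ ∀ n, R (n + 1) = R n ++ [f (R n)] :=
    ⟨fun n => Nat.rec s (fun _ l => l ++ [f l]) n, rfl, fun n => rfl⟩
  have hRl : ∀ n, (R n).length = s.length + n := by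
    intro n
    induction n with
    | zero => rw [hR0]; rfl
    | succ n ih => rw [hRs]; simp [ih]; omega
  have hRm : ∀ {m n}, m ≤ n → R m <+: R n := by
    intro m n h
    induction h with
    | refl => exact List.prefix_refl _
    | step _ ih => exact ih.trans (by rw [Nat.succ_eq_add_one, hRs]; exact List.prefix_append _ _)
  let x : ℕ → Bool := fun n => (R (n + 1)).getD n false
  have hx : ∀ n, Ext (R n) x := by
    intro n
    unfold Ext pre
    apply List.ext_getElem
    · simp
    · intro i h1 h2
      simp only [List.getElem_map, List.getElem_range]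
      have h3 : i < (R (i + 1)).length := by rw [hRl]; omega
      change (R (i + 1)).getD i false = _
      rw [List.getD_eq_getElem _ _ h3]
      rcases le_total n (i + 1) with h | h
      · exact ((hRm h).getElem h2).symm
      · exact (hRm h).getElem h3
  refine ⟨x, hR0 ▸ hx 0, fun m hm => ?_⟩
  obtain ⟨k, rfl⟩ := Nat.exists_eq_add_of_le hm
  have h1 := hx (k + 1)
  have h2 := hx k
  unfold Ext at h1 h2
  rw [hRl] at h1 h2
  rw [← Nat.add_assoc, pre_succ, hRs, h2] at h1
  have := List.append_inj_right' h1 rfl
  rw [h2]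
  simpa using this

/-- the limit of an increasing sequence of positions -/
theorem exists_limit (q : ℕ → List Bool) (h1 : ∀ i, q i <+: q (i + 1))
    (h2 : ∀ N, ∃ i, N ≤ (q i).length) : ∃ x, ∀ i, Ext (q i) x := by
  have hm : ∀ {i j}, i ≤ j → q i <+: q j := by
    intro i j h
    induction h with
    | refl => exact List.prefix_refl _
    | step _ ih => exact ih.trans (h1 _)
  choose g hg using h2
  refine ⟨fun n => (q (g (n + 1))).getD n false, fun i => ?_⟩
  unfold Ext pre
  apply List.ext_getElem
  · simp
  · intro k h3 h4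
    simp only [List.getElem_map, List.getElem_range]
    have h5 : k < (q (g (k + 1))).length := hg (k + 1)
    rw [List.getD_eq_getElem _ _ h5]
    rcases le_total i (g (k + 1)) with h | h
    · exact ((hm h).getElem h4).symm
    · exact (hm h).getElem h5

/-! ### Opinions -/

/-- the bit about which an opinion is expressed by the move number `l` -/
def bit (l : ℕ) : ℕ := (Nat.unpair (l / 2)).1

theorem exists_bit (r : ℕ) (hr : r < 2) (n N : ℕ) : ∃ l, N ≤ l ∧ l % 2 = r ∧ bit l = n := by
  refine ⟨2 * Nat.pair n N + r, ?_, by omega, ?_⟩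
  · have := Nat.right_le_pair n N
    omega
  · unfold bit
    have : (2 * Nat.pair n N + r) / 2 = Nat.pair n N := by omega
    rw [this, Nat.unpair_pair]

/-- In the play `x`, the final opinion of player `r` (`r = 0` for I, `r = 1` for II) on the bit
number `n` is `v`. -/
def Opin (r : ℕ) (x : ℕ → Bool) (n : ℕ) (v : Bool) : Prop :=
  ∃ N, ∀ l, N ≤ l → l % 2 = r → bit l = n → x l = v

theorem Opin.unique {r : ℕ} (hr : r < 2) {x : ℕ → Bool} {n : ℕ} {v v' : Bool} (h : Opin r x n v)
    (h' : Opin r x n v') : v = v' := by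
  obtain ⟨N, hN⟩ := h
  obtain ⟨N', hN'⟩ := h'
  obtain ⟨l, hl, hlr, hln⟩ := exists_bit r hr n (max N N')
  rw [← hN l (le_trans (le_max_left _ _) hl) hlr hln, hN' l (le_trans (le_max_right _ _) hl) hlr hln]

/-- the players agree on bit `n` -/
def Agree (x : ℕ → Bool) (n : ℕ) : Prop := ∃ v, Opin 0 x n v ∧ Opin 1 x n v

/-- `n` is the first bit on which the players do not agree -/
def First (x : ℕ → Bool) (n : ℕ) : Prop := ¬ Agree x n ∧ ∀ j < n, Agree x j

theorem First.unique {x : ℕ → Bool} {n n' : ℕ} (h : First x n) (h' : First x n') : n = n' := by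
  rcases lt_trichotomy n n' with hlt | heq | hgt
  · exact absurd (h'.2 n hlt) h.1
  · exact heq
  · exact absurd (h.2 n' hgt) h'.1

theorem exists_first {x : ℕ → Bool} (h : ∃ n, ¬ Agree x n) : ∃ n, First x n := by
  classical
  refine ⟨Nat.find h, Nat.find_spec h, fun j hj => ?_⟩
  have := Nat.find_min h hj
  push Not at this
  exact this

open Classical in
/-- the player who is blamed for the disagreement on bit `n`: the owner `n % 2` of the bit, if he
has no final opinion on it, otherwise the other player -/
noncomputable def blamed (x : ℕ → Bool) (n : ℕ) : ℕ :=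
  if ∃ v, Opin (n % 2) x n v then 1 - n % 2 else n % 2

open Classical in
/-- the play on which the players agree -/
noncomputable def play (x : ℕ → Bool) : ℕ → Bool := fun n => decide (Opin 0 x n true)

open Classical in
theorem play_eq {x : ℕ → Bool} {n : ℕ} {v : Bool} (h : Opin 0 x n v) : play x n = v := by
  unfold play
  cases v
  · rw [decide_eq_false_iff_not]
    intro h'
    exact absurd (Opin.unique (by norm_num) h h') (by simp)
  · rw [decide_eq_true_iff]
    exact h

/-- Player II is to blame. -/
def RR : Set (ℕ → Bool) := {x | ∃ n, First x n ∧ blamed x n = 1}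

/-- The players agree on all bits. -/
def SS : Set (ℕ → Bool) := {x | ∀ n, Agree x n}

/-- the payoff set of the coded game -/
def TT (A : Set (ℕ → Bool)) : Set (ℕ → Bool) := RR ∪ (SS ∩ play ⁻¹' A)

/-! ### The two players treated alike -/

/-- the play `x` is won by player `r` in the game with payoff set `A` -/
def Win (r : ℕ) (A : Set (ℕ → Bool)) (x : ℕ → Bool) : Prop := if r = 0 then x ∈ A else x ∉ A

/-- `x` is consistent with the strategy `σ` of player `r` -/
def Con (r : ℕ) (σ : List Bool → Bool) (x : ℕ → Bool) : Prop :=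
  ∀ l, l % 2 = r → x l = σ (pre x l)

/-- player `r` has a winning strategy -/
def WinsP (r : ℕ) (A : Set (ℕ → Bool)) : Prop := ∃ σ, ∀ x, Con r σ x → Win r A x

theorem winsI_iff (A : Set (ℕ → Bool)) : WinsI A ↔ WinsP 0 A := by
  constructor
  · rintro ⟨σ, hσ⟩
    exact ⟨σ, fun x hx => hσ x fun n => hx (2 * n) (by omega)⟩
  · rintro ⟨σ, hσ⟩
    refine ⟨σ, fun x hx => hσ x fun l hl => ?_⟩
    obtain ⟨n, rfl⟩ : ∃ n, l = 2 * n := ⟨l / 2, by omega⟩
    exact hx n

theorem winsII_iff (A : Set (ℕ → Bool)) : WinsII A ↔ WinsP 1 A := by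
  constructor
  · rintro ⟨σ, hσ⟩
    exact ⟨σ, fun x hx => hσ x fun n => hx (2 * n + 1) (by omega)⟩
  · rintro ⟨σ, hσ⟩
    refine ⟨σ, fun x hx => hσ x fun l hl => ?_⟩
    obtain ⟨n, rfl⟩ : ∃ n, l = 2 * n + 1 := ⟨l / 2, by omega⟩
    exact hx n

theorem blamed_lt (x : ℕ → Bool) (n : ℕ) : blamed x n < 2 := by
  unfold blamed
  split_ifs <;> omega

theorem win_TT {r : ℕ} (hr : r < 2) (A : Set (ℕ → Bool)) (x : ℕ → Bool) :
    Win r (TT A) x ↔ (x ∈ SS ∧ Win r A (play x)) ∨ ∃ n, First x n ∧ blamed x n = 1 - r := by
  by_cases hS : x ∈ SS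
  · have hno : ∀ n, ¬ First x n := fun n h => h.1 (hS n)
    have hR : x ∉ RR := fun ⟨n, h, _⟩ => hno n h
    have h1 : x ∈ TT A ↔ play x ∈ A := by
      unfold TT
      simp [hR, hS]
    have h2 : ¬ ∃ n, First x n ∧ blamed x n = 1 - r := fun ⟨n, h, _⟩ => hno n h
    unfold Win
    by_cases h0 : r = 0
    · simp only [if_pos h0, h1, hS, true_and, h2, or_false]
    · simp only [if_neg h0, h1, hS, true_and, h2, or_false]
  · obtain ⟨n, hn⟩ := exists_first (by
      by_contra h
      push Not at h
      exact hS h)
    have h1 : x ∈ TT A ↔ blamed x n = 1 := by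
      unfold TT
      constructor
      · rintro (⟨m, hm, hb⟩ | ⟨h, _⟩)
        · rw [hn.unique hm]; exact hb
        · exact absurd h hS
      · intro h
        exact Or.inl ⟨n, hn, h⟩
    have h2 : (∃ n, First x n ∧ blamed x n = 1 - r) ↔ blamed x n = 1 - r := by
      constructor
      · rintro ⟨m, hm, hb⟩
        rw [hn.unique hm]; exact hb
      · intro h
        exact ⟨n, hn, h⟩
    have h3 := blamed_lt x n
    rw [h2]
    unfold Win
    by_cases h0 : r = 0
    · subst h0
      simp only [if_true, h1, hS, false_and, false_or]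
    · have : r = 1 := by omega
      subst this
      simp only [one_ne_zero, if_false, h1, hS, false_and, false_or]
      omega

end Pool.Agent.Helper56Tail
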