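import Mathlib
import Pool.Agent.Helper56_Tail.Basic

/-!
A player wins the game `A` if and only if he wins the coded game `TT A`.
-/

set_option autoImplicit false

namespace Pool.Agent.Helper56Tail

/-! ### From `A` to `TT A` -/

/-- the latest statement of the opponent of player `r` about the bit `n` before move `m` -/
def lat (r : ℕ) (x : ℕ → Bool) : ℕ → ℕ → Bool
  | 0, _ => false
  | m + 1, n => if m % 2 ≠ r ∧ bit m = n then x m else lat r x m n

theorem lat_congr {r : ℕ} {x y : ℕ → Bool} {m : ℕ} (h : ∀ i < m, x i = y i) :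
    lat r x m = lat r y m := by
  funext n
  induction m with
  | zero => rfl
  | succ m ih =>
    unfold lat
    rw [h m (by omega), ih fun i hi => h i (by omega)]

theorem lat_eventually {r : ℕ} (hr : r < 2) {x : ℕ → Bool} {n : ℕ} {v : Bool}
    (h : Opin (1 - r) x n v) : ∃ N, ∀ m, N ≤ m → lat r x m n = v := by
  obtain ⟨N, hN⟩ := h
  obtain ⟨l, hl, hlr, hln⟩ := exists_bit (1 - r) (by omega) n N
  refine ⟨l + 1, fun m hm => ?_⟩
  induction hm with
  | refl =>
    unfold lat
    rw [if_pos ⟨by omega, hln⟩]
    exact hN l hl hlr hln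
  | @step m hm ih =>
    unfold lat
    split_ifs with hc
    · have hm' : l + 1 ≤ m := hm
      exact hN m (by omega) (by omega) hc.2
    · exact ih

/-- the run of the game `A` against the opinions `o` -/
def hist (r : ℕ) (σ : List Bool → Bool) (o : ℕ → Bool) : ℕ → List Bool
  | 0 => []
  | n + 1 => hist r σ o n ++ [if n % 2 = r then σ (hist r σ o n) else o n]

/-- the coded strategy -/
def strat (r : ℕ) (σ : List Bool → Bool) (p : List Bool) : Bool :=
  if bit p.length % 2 = r then
    σ (hist r σ (lat r (fun i => p.getD i false) p.length) (bit p.length))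
  else lat r (fun i => p.getD i false) p.length (bit p.length)

theorem pre_getD (x : ℕ → Bool) {m i : ℕ} (h : i < m) : (pre x m).getD i false = x i := by
  rw [List.getD_eq_getElem _ _ (by simpa using h)]
  simp [pre]

theorem strat_pre (r : ℕ) (σ : List Bool → Bool) (x : ℕ → Bool) (m : ℕ) :
    strat r σ (pre x m) = if bit m % 2 = r then σ (hist r σ (lat r x m) (bit m))
      else lat r x m (bit m) := by
  unfold strat
  have : lat r (fun i => (pre x m).getD i false) m = lat r x m :=
    lat_congr fun i hi => pre_getD x hi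
  simp only [pre_length, this]

theorem agree_play {x : ℕ → Bool} {n : ℕ} (h : Agree x n) {r : ℕ} (hr : r < 2) :
    Opin r x n (play x n) := by
  obtain ⟨v, h0, h1⟩ := h
  rw [play_eq h0]
  interval_cases r
  · exact h0
  · exact h1

theorem hist_eventually {r : ℕ} (hr : r < 2) {σ : List Bool → Bool} {x : ℕ → Bool}
    (hx : Con r (strat r σ) x) {n : ℕ} (hn : ∀ j < n, Agree x j) :
    (∃ N, ∀ m, N ≤ m → hist r σ (lat r x m) n = pre (play x) n) ∧
      ∀ j < n, j % 2 = r → play x j = σ (pre (play x) j) := by
  induction n with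
  | zero => exact ⟨⟨0, fun m _ => rfl⟩, fun j hj => by omega⟩
  | succ n ih =>
    obtain ⟨⟨N, hN⟩, h2⟩ := ih fun j hj => hn j (by omega)
    have hA := hn n (by omega)
    by_cases hnr : n % 2 = r
    · obtain ⟨N', hN'⟩ := agree_play hA hr
      have key : play x n = σ (pre (play x) n) := by
        obtain ⟨l, hl, hlr, hln⟩ := exists_bit r hr n (max N N')
        rw [← hN' l (le_trans (le_max_right _ _) hl) hlr hln, hx l hlr, strat_pre, hln,
          if_pos hnr, hN l (le_trans (le_max_left _ _) hl)]
      refine ⟨⟨N, fun m hm => ?_⟩, fun j hj hjr => ?_⟩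
      · unfold hist
        rw [if_pos hnr, hN m hm, pre_succ, key]
      · rcases Nat.lt_succ_iff_lt_or_eq.1 hj with h | h
        · exact h2 j h hjr
        · subst h; exact key
    · obtain ⟨N', hN'⟩ := lat_eventually hr (agree_play hA (r := 1 - r) (by omega))
      refine ⟨⟨max N N', fun m hm => ?_⟩, fun j hj hjr => ?_⟩
      · unfold hist
        rw [if_neg hnr, hN m (le_trans (le_max_left _ _) hm), pre_succ,
          hN' m (le_trans (le_max_right _ _) hm)]
      · rcases Nat.lt_succ_iff_lt_or_eq.1 hj with h | h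
        · exact h2 j h hjr
        · subst h; exact absurd hjr hnr

theorem winsP_TT {r : ℕ} (hr : r < 2) {A : Set (ℕ → Bool)} (h : WinsP r A) : WinsP r (TT A) := by
  obtain ⟨σ, hσ⟩ := h
  refine ⟨strat r σ, fun x hx => ?_⟩
  rw [win_TT hr]
  by_cases hS : x ∈ SS
  · refine Or.inl ⟨hS, hσ _ fun l hl => ?_⟩
    exact (hist_eventually hr hx (n := l + 1) fun j _ => hS j).2 l (by omega) hl
  · obtain ⟨n, hn⟩ := exists_first (by
      by_contra h
      push Not at h
      exact hS h)
    refine Or.inr ⟨n, hn, ?_⟩
    obtain ⟨⟨N, hN⟩, -⟩ := hist_eventually hr hx hn.2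
    by_cases hnr : n % 2 = r
    · have : ∃ v, Opin (n % 2) x n v := by
        refine ⟨σ (pre (play x) n), N, fun l hl hlr hln => ?_⟩
        rw [hnr] at hlr
        rw [hx l hlr, strat_pre, hln, if_pos hnr, hN l hl]
      unfold blamed
      rw [if_pos this, hnr]
    · have : ¬ ∃ v, Opin (n % 2) x n v := by
        rintro ⟨v, hv⟩
        have hnr' : n % 2 = 1 - r := by omega
        rw [hnr'] at hv
        obtain ⟨N', hN'⟩ := lat_eventually hr hv
        have hv' : Opin r x n v := by
          refine ⟨N', fun l hl hlr hln => ?_⟩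
          rw [hx l hlr, strat_pre, hln, if_neg hnr, hN' l hl]
        apply hn.1
        refine ⟨v, ?_, ?_⟩
        · interval_cases r
          · exact hv'
          · exact hv
        · interval_cases r
          · exact hv
          · exact hv'
      unfold blamed
      rw [if_neg this]
      omega

/-! ### From `TT A` to `A` -/

theorem agree_of_win {r : ℕ} (hr : r < 2) {A : Set (ℕ → Bool)} {x : ℕ → Bool}
    (hx : Win r (TT A) x) {n : ℕ} {w : ℕ → Bool} (h1 : ∀ j < n, Opin (1 - r) x j (w j))
    (h2 : ∀ j < n, j % 2 = r → Opin r x j (w j)) : ∀ j < n, Agree x j := by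
  intro j
  induction j using Nat.strong_induction_on with
  | _ j ih =>
    intro hj
    by_contra hA
    have hF : First x j := ⟨hA, fun i hi => ih i hi (by omega)⟩
    have hjr : j % 2 ≠ r := by
      intro hjr
      apply hA
      have a := h1 j hj
      have b := h2 j hj hjr
      refine ⟨w j, ?_, ?_⟩
      · interval_cases r
        · exact b
        · exact a
      · interval_cases r
        · exact a
        · exact b
    have hb : blamed x j = r := by
      have hjr' : j % 2 = 1 - r := by omega
      unfold blamed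
      rw [if_pos ⟨w j, by rw [hjr']; exact h1 j hj⟩]
      omega
    rw [win_TT hr] at hx
    rcases hx with ⟨hS, _⟩ | ⟨m, hm, hmb⟩
    · exact hA (hS j)
    · rw [hm.unique hF, hb] at hmb
      omega

/-- after position `N` the opponent of player `r` insists on `u` -/
def Ins (r : ℕ) (u : List Bool) (x : ℕ → Bool) (N : ℕ) : Prop :=
  ∀ l, N ≤ l → l % 2 ≠ r → bit l < u.length → x l = u.getD (bit l) false

/-- own statements about own bits `< u.length` are as in `u` whenever the opponent insists
on `u`. -/
def Inv (r : ℕ) (σ : List Bool → Bool) (p u : List Bool) : Prop :=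
  ∀ x, Ext p x → Con r σ x → Ins r u x p.length →
    ∀ l, p.length ≤ l → l % 2 = r → bit l < u.length → bit l % 2 = r → x l = u.getD (bit l) false

/-- the finite position `p` is consistent with `σ` -/
def ConF (r : ℕ) (σ : List Bool → Bool) (p : List Bool) : Prop :=
  ∀ l < p.length, l % 2 = r → p.getD l false = σ (p.take l)

/-- the opponent insists on `u` in `q` from move `N` on -/
def InsF (r : ℕ) (u q : List Bool) (N : ℕ) : Prop :=
  ∀ l, N ≤ l → l < q.length → l % 2 ≠ r → bit l < u.length → q.getD l false = u.getD (bit l) false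

theorem ext_getD {p : List Bool} {x : ℕ → Bool} (h : Ext p x) {l : ℕ} (hl : l < p.length) :
    p.getD l false = x l := by
  unfold Ext at h
  conv_lhs => rw [← h]
  exact pre_getD x hl

theorem ext_take {p : List Bool} {x : ℕ → Bool} (h : Ext p x) {l : ℕ} (hl : l ≤ p.length) :
    p.take l = pre x l := by
  unfold Ext at h
  rw [← h]
  have h1 : pre x l <+: pre x p.length := pre_prefix x hl
  have h2 : List.take l (pre x p.length) <+: pre x p.length := List.take_prefix _ _
  refine ((List.prefix_of_prefix_length_le h2 h1 (by simp [hl])).eq_of_length ?_)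
  simp [hl]

theorem conF_pre {r : ℕ} {σ : List Bool → Bool} {x : ℕ → Bool} (h : Con r σ x) (m : ℕ) :
    ConF r σ (pre x m) := by
  intro l hl hlr
  rw [pre_length] at hl
  rw [pre_getD x hl, ext_take (Ext.pre x m) (by simpa using hl.le), h l hlr]

/-- extend a consistent position to a consistent play in which the opponent insists on `u` -/
theorem exists_play (r : ℕ) (σ : List Bool → Bool) (p u : List Bool) (hp : ConF r σ p) :
    ∃ x, Ext p x ∧ Con r σ x ∧ Ins r u x p.length := by
  obtain ⟨x, hx, hx'⟩ := exists_run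
    (fun s => if s.length % 2 = r then σ s else u.getD (bit s.length) false) p
  refine ⟨x, hx, fun l hl => ?_, fun l hl hlr _ => ?_⟩
  · by_cases h : l < p.length
    · rw [← ext_getD hx h, hp l h hl, ext_take hx h.le]
    · rw [hx' l (by omega)]
      simp [hl]
  · rw [hx' l hl]
    simp [hlr]

theorem getD_append_lt {u : List Bool} {v : Bool} {j : ℕ} (h : j < u.length) :
    (u ++ [v]).getD j false = u.getD j false := by
  rw [List.getD_eq_getElem _ _ (by simp; omega), List.getD_eq_getElem _ _ h,
    List.getElem_append_left h]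

theorem getD_append_eq {u : List Bool} {v : Bool} :
    (u ++ [v]).getD u.length false = v := by
  rw [List.getD_eq_getElem _ _ (by simp)]
  simp

theorem Ins.of_append {r : ℕ} {u : List Bool} {v : Bool} {x : ℕ → Bool} {N : ℕ}
    (h : Ins r (u ++ [v]) x N) : Ins r u x N := by
  intro l hl hlr hb
  rw [h l hl hlr (by simp; omega), getD_append_lt hb]

theorem Inv.mono {r : ℕ} {σ : List Bool → Bool} {p u q : List Bool} (h : Inv r σ p u)
    (hq : p <+: q) (hi : InsF r u q p.length) : Inv r σ q u := by
  intro x hx hc hins l hl hlr hb hbr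
  refine h x (hx.mono hq) hc ?_ l (le_trans hq.length_le hl) hlr hb hbr
  intro k hk hkr hkb
  by_cases hkq : k < q.length
  · rw [← ext_getD hx hkq]
    exact hi k hk hkq hkr hkb
  · exact hins k (by omega) hkr hkb

theorem Inv.append {r : ℕ} {σ : List Bool → Bool} {p u : List Bool} (h : Inv r σ p u)
    (b : Bool) (hu : u.length % 2 ≠ r) : Inv r σ p (u ++ [b]) := by
  intro x hx hc hins l hl hlr hb hbr
  have hb' : bit l < u.length := by
    rw [List.length_append, List.length_singleton] at hb
    rcases Nat.lt_succ_iff_lt_or_eq.1 hb with h' | h'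
    · exact h'
    · rw [h'] at hbr; exact absurd hbr hu
  rw [h x hx hc hins.of_append l hl hlr hb' hbr, getD_append_lt hb']

theorem Con.of_limit {r : ℕ} {σ : List Bool → Bool} {x : ℕ → Bool}
    (h : ∀ N, ∃ q, N ≤ q.length ∧ Ext q x ∧ ConF r σ q) : Con r σ x := by
  intro l hl
  obtain ⟨q, hq, hx, hc⟩ := h (l + 1)
  rw [← ext_getD hx (show l < q.length by omega), hc l (by omega) hl, ext_take hx (by omega)]

/-- `q` is a continuation of `p`, consistent with `σ`, in which the opponent insists on `u` -/
def Good (r : ℕ) (σ : List Bool → Bool) (p u q : List Bool) : Prop :=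
  p <+: q ∧ p.length < q.length ∧ ConF r σ q ∧ InsF r u q p.length

theorem good_pre {r : ℕ} {σ : List Bool → Bool} {p u : List Bool} {x : ℕ → Bool}
    (hx : Ext p x) (hc : Con r σ x) (hi : Ins r u x p.length) {m : ℕ} (hm : p.length < m) :
    Good r σ p u (pre x m) := by
  refine ⟨?_, by simpa using hm, conF_pre hc m, ?_⟩
  · have h1 := pre_prefix x hm.le
    unfold Ext at hx
    rwa [hx] at h1
  · intro l hl hl' hlr hb
    rw [pre_length] at hl'
    rw [pre_getD x hl']
    exact hi l hl hlr hb

theorem step {r : ℕ} (hr : r < 2) {σ : List Bool → Bool} {A : Set (ℕ → Bool)}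
    (hσ : ∀ x, Con r σ x → Win r (TT A) x) {p u : List Bool} (hc : ConF r σ p)
    (hI : Inv r σ p u) (hu : u.length % 2 = r) :
    ∃ q v, Good r σ p u q ∧ Inv r σ q (u ++ [v]) := by
  by_contra hno
  push Not at hno
  have key : ∀ (q : {q // Good r σ p u q}) (v : Bool), ∃ q' : {q // Good r σ p u q},
      q.1 <+: q'.1 ∧ ∃ l, q.1.length ≤ l ∧ q'.1.length = l + 1 ∧ l % 2 = r ∧ bit l = u.length ∧
        q'.1.getD l false = !v := by
    rintro ⟨q, hq⟩ v
    have h1 := hno q v hq
    unfold Inv at h1
    push Not at h1
    obtain ⟨x, hx, hxc, hxi, l, hl, hlr, hb, hbr, hne⟩ := h1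
    have hxi' : Ins r u x q.length := hxi.of_append
    have hb' : bit l = u.length := by
      by_contra hb'
      have hlt : bit l < u.length := by
        rw [List.length_append, List.length_singleton] at hb
        omega
      apply hne
      rw [getD_append_lt hlt]
      exact (hI.mono hq.1 hq.2.2.2) x hx hxc hxi' l hl hlr hlt hbr
    have hval : x l = !v := by
      rw [hb', getD_append_eq] at hne
      revert hne
      cases x l <;> cases v <;> simp
    have hxp : Ins r u x p.length := by
      intro k hk hkr hkb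
      by_cases hkq : k < q.length
      · rw [← ext_getD hx hkq]
        exact hq.2.2.2 k hk hkq hkr hkb
      · exact hxi' k (by omega) hkr hkb
    refine ⟨⟨pre x (l + 1), good_pre (hx.mono hq.1) hxc hxp ?_⟩, ?_, l, hl, by simp, hlr, hb', ?_⟩
    · have := hq.2.1
      omega
    · have h2 := pre_prefix x (show q.length ≤ l + 1 by omega)
      unfold Ext at hx
      rwa [hx] at h2
    · rw [pre_getD x (by omega), hval]
  obtain ⟨x0, hx0, hx0c, hx0i⟩ := exists_play r σ p u hc
  let q0 : {q // Good r σ p u q} := ⟨pre x0 (p.length + 1), good_pre hx0 hx0c hx0i (by omega)⟩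
  choose f hf1 hf2 using key
  obtain ⟨s, hs0, hss⟩ : ∃ s : ℕ → {q // Good r σ p u q}, s 0 = q0 ∧
      ∀ i, s (i + 1) = f (s i) (decide (i % 2 = 0)) :=
    ⟨fun n => Nat.rec q0 (fun i q => f q (decide (i % 2 = 0))) n, rfl, fun n => rfl⟩
  have hlen : ∀ i, i ≤ (s i).1.length := by
    intro i
    induction i with
    | zero => omega
    | succ i ih =>
      obtain ⟨l, hl, hl', -⟩ := hf2 (s i) (decide (i % 2 = 0))
      rw [hss, hl']
      omega
  obtain ⟨x, hx⟩ := exists_limit (fun i => (s i).1)
    (fun i => by
      have := hf1 (s i) (decide (i % 2 = 0))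
      rw [← hss] at this
      exact this) fun N => ⟨N, hlen N⟩
  have hxc : Con r σ x := Con.of_limit fun N => ⟨(s N).1, hlen N, hx N, (s N).2.2.2.1⟩
  have hxi : Ins r u x p.length := by
    intro l hl hlr hb
    have h1 := hlen (l + 1)
    rw [← ext_getD (hx (l + 1)) (show l < (s (l + 1)).1.length by omega)]
    exact (s (l + 1)).2.2.2.2 l hl (by omega) hlr hb
  have hxp : Ext p x := (hx 0).mono (s 0).2.1
  have hnop : ¬ ∃ v, Opin r x u.length v := by
    rintro ⟨v, N, hN⟩
    have h1 : ∀ v', ∃ l, N ≤ l ∧ l % 2 = r ∧ bit l = u.length ∧ x l = !v' := by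
      intro v'
      obtain ⟨i, hi, hiv⟩ : ∃ i, N ≤ i ∧ decide (i % 2 = 0) = v' := by
        cases v'
        · exact ⟨2 * N + 1, by omega, by simp⟩
        · exact ⟨2 * N, by omega, by simp⟩
      obtain ⟨l, hl, hl', hlr, hlb, hlv⟩ := hf2 (s i) (decide (i % 2 = 0))
      rw [← hss] at hl' hlv
      refine ⟨l, by have := hlen i; omega, hlr, hlb, ?_⟩
      rw [← ext_getD (hx (i + 1)) (by omega), hlv, hiv]
    obtain ⟨l, hl, hlr, hlb, hlv⟩ := h1 v
    rw [hN l hl hlr hlb] at hlv
    revert hlv
    cases v <;> simp
  have hagree : ∀ j < u.length, Agree x j := by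
    refine agree_of_win hr (hσ x hxc) (w := fun j => u.getD j false) (fun j hj => ?_)
      fun j hj hjr => ?_
    · exact ⟨p.length, fun l hl hlr hb => by
        rw [hxi l hl (by omega) (by omega), hb]⟩
    · exact ⟨p.length, fun l hl hlr hb => by
        rw [hI x hxp hxc hxi l hl hlr (by omega) (by omega), hb]⟩
  have hF : First x u.length := by
    refine ⟨fun hA => hnop ⟨_, agree_play hA hr⟩, hagree⟩
  have hb : blamed x u.length = r := by
    unfold blamed
    rw [if_neg (by rw [hu]; exact hnop), hu]
  have hw := hσ x hxc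
  rw [win_TT hr] at hw
  rcases hw with ⟨hS, _⟩ | ⟨m, hm, hmb⟩
  · exact hF.1 (hS _)
  · rw [hm.unique hF, hb] at hmb
    omega

/-- the simulated positions of the coded game -/
def sim (r : ℕ) (nq : List Bool → List Bool → List Bool) (w : ℕ → Bool) : ℕ → List Bool
  | 0 => []
  | n + 1 => if n % 2 = r then nq (sim r nq w n) (pre w n) else sim r nq w n

theorem sim_congr {r : ℕ} {nq : List Bool → List Bool → List Bool} {w w' : ℕ → Bool} {n : ℕ}
    (h : ∀ i < n, w i = w' i) : sim r nq w n = sim r nq w' n := by
  induction n with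
  | zero => rfl
  | succ n ih =>
    unfold sim
    rw [ih fun i hi => h i (by omega), (pre_eq_iff w w' n).2 fun i hi => h i (by omega)]

theorem winsP_of_TT {r : ℕ} (hr : r < 2) {A : Set (ℕ → Bool)} (h : WinsP r (TT A)) :
    WinsP r A := by
  obtain ⟨σ, hσ⟩ := h
  have hst : ∀ p u, ∃ q v, ConF r σ p → Inv r σ p u → u.length % 2 = r →
      Good r σ p u q ∧ Inv r σ q (u ++ [v]) := by
    intro p u
    by_cases h : ConF r σ p ∧ Inv r σ p u ∧ u.length % 2 = r
    · obtain ⟨q, v, hqv⟩ := step hr hσ h.1 h.2.1 h.2.2
      exact ⟨q, v, fun _ _ _ => hqv⟩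
    · exact ⟨[], false, fun h1 h2 h3 => absurd ⟨h1, h2, h3⟩ h⟩
  choose nq nv hst using hst
  refine ⟨fun s => nv (sim r nq (fun i => s.getD i false) s.length) s, fun w hw => ?_⟩
  have hw' : ∀ l, l % 2 = r → w l = nv (sim r nq w l) (pre w l) := by
    intro l hl
    have h1 := hw l hl
    simp only [pre_length] at h1
    rw [sim_congr (w := fun i => (pre w l).getD i false) (w' := w)
      fun i hi => pre_getD w hi] at h1
    exact h1
  set Q := sim r nq w with hQ
  have hinv : ∀ n, ConF r σ (Q n) ∧ Inv r σ (Q n) (pre w n) := by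
    intro n
    induction n with
    | zero =>
      refine ⟨fun l hl => ?_, fun x _ _ _ l _ _ hb => ?_⟩
      · simp [hQ, sim] at hl
      · simp at hb
    | succ n ih =>
      by_cases hn : n % 2 = r
      · have h1 : Q (n + 1) = nq (Q n) (pre w n) := by
          rw [hQ]; simp only [sim, if_pos hn]
        obtain ⟨h2, h3⟩ := hst (Q n) (pre w n) ih.1 ih.2 (by simpa using hn)
        rw [h1, pre_succ, hw' n hn]
        exact ⟨h2.2.2.1, h3⟩
      · have h1 : Q (n + 1) = Q n := by
          rw [hQ]; simp only [sim, if_neg hn]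
        rw [h1, pre_succ]
        exact ⟨ih.1, ih.2.append _ (by simpa using hn)⟩
  have hgood : ∀ n, n % 2 = r → Good r σ (Q n) (pre w n) (Q (n + 1)) := by
    intro n hn
    have h1 : Q (n + 1) = nq (Q n) (pre w n) := by
      rw [hQ]; simp only [sim, if_pos hn]
    rw [h1]
    exact (hst (Q n) (pre w n) (hinv n).1 (hinv n).2 (by simpa using hn)).1
  have hsame : ∀ n, n % 2 ≠ r → Q (n + 1) = Q n := by
    intro n hn
    rw [hQ]; simp only [sim, if_neg hn]
  have hpre : ∀ n, Q n <+: Q (n + 1) := by
    intro n
    by_cases hn : n % 2 = r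
    · exact (hgood n hn).1
    · rw [hsame n hn]
  have hlen : ∀ N, N ≤ (Q (2 * N)).length := by
    intro N
    induction N with
    | zero => omega
    | succ N ih =>
      have h1 := (hpre (2 * N)).length_le
      have h2 := (hpre (2 * N + 1)).length_le
      have h3 : 2 * (N + 1) = 2 * N + 1 + 1 := by ring
      rw [h3]
      rcases Nat.lt_or_ge r 1 with h0 | h0
      · have := (hgood (2 * N) (by omega)).2.1
        omega
      · have := (hgood (2 * N + 1) (by omega)).2.1
        omega
  obtain ⟨x, hx⟩ := exists_limit Q hpre fun N => ⟨2 * N, hlen N⟩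
  have hxc : Con r σ x := Con.of_limit fun N => ⟨Q (2 * N), hlen N, hx _, (hinv _).1⟩
  have hseg : ∀ n m l, n ≤ m → (Q n).length ≤ l → l < (Q m).length → l % 2 ≠ r → bit l < n →
      x l = w (bit l) := by
    intro n m
    induction m with
    | zero =>
      intro l _ _ h2
      simp [hQ, sim] at h2
    | succ m ih =>
      intro l h1 h2 h3 h4 h5
      by_cases hlm : l < (Q m).length
      · by_cases hnm : n ≤ m
        · exact ih l hnm h2 hlm h4 h5
        · have : n = m + 1 := by omega
          subst this
          omega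
      · have hmr : m % 2 = r := by
          by_contra hmr
          rw [hsame m hmr] at h3
          omega
        have hnm : n ≤ m := by
          by_contra hnm
          have : n = m + 1 := by omega
          subst this
          omega
        have h6 := (hgood m hmr).2.2.2 l (by omega) h3 h4 (by simp; omega)
        rw [ext_getD (hx _) h3] at h6
        rw [h6, pre_getD w (by omega)]
  have hxi : ∀ n, Ins r (pre w n) x (Q n).length := by
    intro n l hl hlr hb
    rw [pre_length] at hb
    rw [pre_getD w hb]
    refine hseg n (max n (2 * (l + 1))) l (le_max_left _ _) hl ?_ hlr hb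
    have h1 : ∀ {i j}, i ≤ j → (Q i).length ≤ (Q j).length := by
      intro i j h
      induction h with
      | refl => exact le_rfl
      | step _ ih => exact ih.trans (hpre _).length_le
    have h2 := h1 (le_max_right n (2 * (l + 1)))
    have h3 := hlen (l + 1)
    omega
  have ho1 : ∀ j, Opin (1 - r) x j (w j) := by
    intro j
    refine ⟨(Q (j + 1)).length, fun l hl hlr hb => ?_⟩
    rw [hxi (j + 1) l hl (by omega) (by simp; omega), hb, pre_getD w (by omega)]
  have ho2 : ∀ j, j % 2 = r → Opin r x j (w j) := by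
    intro j hj
    refine ⟨(Q (j + 1)).length, fun l hl hlr hb => ?_⟩
    rw [(hinv (j + 1)).2 x (hx _) hxc (hxi _) l hl hlr (by simp; omega) (by omega), hb,
      pre_getD w (by omega)]
  have hS : x ∈ SS := fun n =>
    agree_of_win hr (hσ x hxc) (n := n + 1) (fun j _ => ho1 j) (fun j _ hj => ho2 j hj) n
      (by omega)
  have hplay : play x = w := by
    funext j
    exact Opin.unique (by omega) (agree_play (hS j) (show 1 - r < 2 by omega)) (ho1 j)
  have hwin := hσ x hxc
  rw [win_TT hr] at hwin
  rcases hwin with ⟨_, h1⟩ | ⟨m, hm, _⟩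
  · rwa [hplay] at h1
  · exact absurd (hS m) hm.1

end Pool.Agent.Helper56Tail
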