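import Mathlib
import Pool.Agent.Helper56_Tail.Basic

/-!
The coding is Borel, and its values are tail sets.
-/

set_option autoImplicit false

namespace Pool.Agent.Helper56Tail

theorem Opin.congr {r : ℕ} {x y : ℕ → Bool} (h : ∃ N, ∀ n, N ≤ n → x n = y n) {n : ℕ} {v : Bool}
    (hx : Opin r x n v) : Opin r y n v := by
  obtain ⟨N, hN⟩ := h
  obtain ⟨M, hM⟩ := hx
  exact ⟨max N M, fun l hl hlr hb => by
    rw [← hN l (le_trans (le_max_left _ _) hl)]
    exact hM l (le_trans (le_max_right _ _) hl) hlr hb⟩

theorem opin_congr {x y : ℕ → Bool} (h : ∃ N, ∀ n, N ≤ n → x n = y n) (r n : ℕ) (v : Bool) :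
    Opin r x n v ↔ Opin r y n v := by
  obtain ⟨N, hN⟩ := h
  exact ⟨Opin.congr ⟨N, hN⟩, Opin.congr ⟨N, fun n hn => (hN n hn).symm⟩⟩

open Classical in
theorem tailSet_TT (A : Set (ℕ → Bool)) : TailSet (TT A) := by
  intro x y hx hxy
  have hop : ∀ r n v, Opin r x n v ↔ Opin r y n v := opin_congr hxy
  have hag : ∀ n, Agree x n ↔ Agree y n := fun n => by
    unfold Agree
    simp only [hop]
  have hfi : ∀ n, First x n ↔ First y n := fun n => by
    unfold First
    simp only [hag]
  have hbl : ∀ n, blamed x n = blamed y n := fun n => by
    unfold blamed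
    exact if_congr (exists_congr fun v => hop _ _ _) rfl rfl
  have hpl : play x = play y := by
    funext n
    unfold play
    exact decide_eq_decide.2 (hop _ _ _)
  rcases hx with ⟨n, hn, hb⟩ | ⟨hS, hA⟩
  · exact Or.inl ⟨n, (hfi n).1 hn, by rw [← hbl]; exact hb⟩
  · refine Or.inr ⟨fun n => (hag n).1 (hS n), ?_⟩
    change play y ∈ A
    rw [← hpl]
    exact hA

theorem measurable_opin (r n : ℕ) (v : Bool) : MeasurableSet {x | Opin r x n v} := by
  unfold Opin
  simp only [Set.ofPred_exists, Set.ofPred_forall]
  refine MeasurableSet.iUnion fun N => MeasurableSet.iInter fun l => MeasurableSet.iInter fun _ =>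
    MeasurableSet.iInter fun _ => MeasurableSet.iInter fun _ => ?_
  exact (measurable_pi_apply (X := fun _ : ℕ => Bool) l) (measurableSet_singleton v)

theorem measurable_agree (n : ℕ) : MeasurableSet {x | Agree x n} := by
  unfold Agree
  simp only [Set.ofPred_exists]
  exact MeasurableSet.iUnion fun v => (measurable_opin 0 n v).inter (measurable_opin 1 n v)

theorem measurable_SS : MeasurableSet SS := by
  unfold SS
  simp only [Set.ofPred_forall]
  exact MeasurableSet.iInter measurable_agree

theorem measurable_RR : MeasurableSet RR := by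
  unfold RR First
  simp only [Set.ofPred_exists]
  refine MeasurableSet.iUnion fun n => ?_
  refine MeasurableSet.inter ((measurable_agree n).compl.inter ?_) ?_
  · change MeasurableSet {x | ∀ j < n, Agree x j}
    simp only [Set.ofPred_forall]
    exact MeasurableSet.iInter fun j => MeasurableSet.iInter fun _ => measurable_agree j
  · change MeasurableSet {x | blamed x n = 1}
    have h1 : MeasurableSet {x | ∃ v, Opin (n % 2) x n v} := by
      simp only [Set.ofPred_exists]
      exact MeasurableSet.iUnion fun v => measurable_opin _ _ _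
    have h2 : {x | blamed x n = 1} = if n % 2 = 0 then {x | ∃ v, Opin (n % 2) x n v} else
        {x | ∃ v, Opin (n % 2) x n v}ᶜ := by
      ext x
      rcases Nat.mod_two_eq_zero_or_one n with h | h
      · rw [if_pos h]
        simp only [Set.mem_ofPred_eq, blamed]
        split_ifs with h3
        · simp [h3]; omega
        · simp [h3]; omega
      · rw [if_neg (by omega)]
        simp only [Set.mem_ofPred_eq, Set.mem_compl_iff, blamed]
        split_ifs with h3
        · simp [h3]; omega
        · simp [h3]; omega
    rw [h2]
    split_ifs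
    · exact h1
    · exact h1.compl

theorem measurable_play : Measurable play := by
  refine measurable_pi_lambda _ fun n => ?_
  refine measurable_to_bool ?_
  have : (fun x => play x n) ⁻¹' {true} = {x | Opin 0 x n true} := by
    ext x
    simp [play]
  rw [this]
  exact measurable_opin 0 n true

end Pool.Agent.Helper56Tail
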